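import Pool.Agent.H622_Rnd.Main
import Pool.Agent.H622_Rnd.Ccc
import Pool.Agent.Helper594_Ctry.Omega1

/-!
# After adding a random real some Aronszajn line contains no Countryman line
-/

set_option autoImplicit false

open Set MeasureTheory

namespace Pool.Agent.Results.MP_77405c_lc.RandomReal

open Pool.Agent.Helper594.Ctry Pool.Agent.H622

/-- **Random reals and Countryman sublines.** Let `a` be a coherent family of finite-to-one
functions on `ω₁` and let `j` enumerate the restrictions of its functions, level by level. For every
sequence of bits `r` the line `RLine a j r` is an Aronszajn line without Suslin suborders. Let the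
bits `r ω n` be random on a probability space, fair and independent. Let the measurable sets `X α`
be the values of a name of a set of points of the line of the random bits, and the measurable sets
`K n α β` those of names of countably many chains which cover the square of that set. Then only
countably many points belong to the set with positive probability. -/
theorem result : (∃ a : Om → Om → ℕ, IsCohFam a) ∧ ∀ a : Om → Om → ℕ, IsCohFam a →
    (∃ j, Enum a j) ∧ ∀ j, Enum a j →
      (∀ r : ℕ → Bool, IsAronszajn (RLine a j r) ∧ NoSuslin (RLine a j r)) ∧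
      ∀ (Ω : Type) [MeasurableSpace Ω] (μ : Measure Ω) [IsProbabilityMeasure μ]
        (r : Ω → ℕ → Bool), FairBits μ r →
        ∀ (X : Om → Set Ω) (K : ℕ → Om → Om → Set Ω), (∀ α, MeasurableSet (X α)) →
          (∀ n α β, MeasurableSet (K n α β)) →
          (∀ α β, ∀ᵐ ω ∂μ, ω ∈ X α → ω ∈ X β → ∃ n, ω ∈ K n α β) →
          (∀ n α β α' β', ∀ᵐ ω ∂μ, ω ∈ K n α β → ω ∈ K n α' β' →
            (rkey a j (r ω) α, rkey a j (r ω) β) ≤ (rkey a j (r ω) α', rkey a j (r ω) β') ∨
            (rkey a j (r ω) α', rkey a j (r ω) β') ≤ (rkey a j (r ω) α, rkey a j (r ω) β)) →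
          {α | μ (X α) ≠ 0}.Countable := by
  refine ⟨⟨seq (fun _ => true), ⟨seq_finOne Om_countable _,
    fun _ _ h => seq_coh Om_countable _ h⟩⟩, ?_⟩
  intro a ha
  refine ⟨?_, fun j hj => ⟨fun r => ⟨rline_aronszajn Om_countable ha j r,
    rline_not_ccc Om_countable ha j r⟩, ?_⟩⟩
  · have h : ∀ ξ : Om, ∃ f : (Om → ℕ) → ℕ, InjOn f (range fun δ => restr ξ (word a δ)) := by
      intro ξ
      exact Set.countable_iff_exists_injOn.1 (countable_nodes Om_countable ha ξ)
    choose j hj using h
    exact ⟨j, hj⟩
  · intro Ω _ μ _ r hr X K hX hK hcov hchain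
    exact no_countryman Om_countable ha hj hr hX hK hcov hchain

end Pool.Agent.Results.MP_77405c_lc.RandomReal
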